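import Pool.Agent.helper25.CX.Spec

/-!
# Row cx:MPS (MP_447e26_gt): the support map of a body of constant width
-/

set_option autoImplicit false

open MeasureTheory Set Filter Topology
open scoped ENNReal
open Pool.Agent.helper81.CW

noncomputable section

namespace Pool.Agent.CX

theorem MPS_un_norm {n : ℕ} {x : E n} (hx : x ≠ 0) : ‖un x‖ = 1 := by
  unfold un
  rw [norm_smul, norm_inv, norm_norm, inv_mul_cancel₀ (norm_ne_zero_iff.2 hx)]

theorem MPS_un_neg {n : ℕ} (x : E n) : un (-x) = -un x := by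
  unfold un
  rw [norm_neg, smul_neg]

theorem MPS_un_smul {n : ℕ} (x : E n) (t : ℝ) (ht : 0 < t) : un (t • x) = un x := by
  unfold un
  rw [norm_smul, Real.norm_eq_abs, abs_of_pos ht, smul_smul, mul_inv, mul_comm t⁻¹, mul_assoc,
    inv_mul_cancel₀ ht.ne', mul_one]

theorem MPS_un_cont {n : ℕ} : ContinuousOn (un : E n → E n) {0}ᶜ := by
  have h1 : ContinuousOn (fun x : E n => ‖x‖⁻¹) {0}ᶜ := by
    apply ContinuousOn.inv₀ continuous_norm.continuousOn
    intro x hx
    exact norm_ne_zero_iff.2 hx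
  exact h1.smul continuousOn_id

theorem MPS_ex {n : ℕ} (C : Set (E n)) (hC : ConstWidth C 1) (u : E n) :
    ∃ X ∈ C, inner ℝ u X = supp C u := by
  obtain ⟨X, hX, h⟩ := hC.2.1.exists_sSup_image_eq hC.1
    (f := fun x : E n => (inner ℝ u x : ℝ)) (by fun_prop)
  exact ⟨X, hX, h.symm⟩

theorem MPS (hJ2 : J2_stmt) (hJ4 : J4_stmt) : MPS_stmt := by
  classical
  intro n C hC hb
  obtain ⟨hd, -, -⟩ := hJ2 n C 1 hC
  have hbR : ∀ x ∈ C, ‖x‖ ≤ Real.sqrt (1 / 2) := by
    intro x hx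
    apply Real.le_sqrt_of_sq_le
    exact hb x hx
  obtain ⟨hle, -, hhom⟩ := hJ4 n C (Real.sqrt (1 / 2)) hC.1 (Real.sqrt_nonneg _) hbR
  choose X hXC hX using MPS_ex C hC
  -- the two support points in the directions `u`, `-u`
  have hneg : ∀ u : E n, ‖u‖ = 1 → X (-u) = X u - u := by
    intro u hu
    have h1 : inner ℝ u (X u) - inner ℝ u (X (-u)) = (1 : ℝ) := by
      have h2 := hC.2.2.2.2 u hu
      have h3 := hX u
      have h4 := hX (-u)
      rw [inner_neg_left] at h4
      linarith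
    have h5 : ‖X u - X (-u)‖ ≤ 1 := hd _ (hXC u) _ (hXC (-u))
    have h6 : ‖X u - X (-u) - u‖ ^ 2 ≤ 0 := by
      rw [norm_sub_sq_real, inner_sub_left, real_inner_comm u (X u), real_inner_comm u (X (-u)), hu]
      nlinarith [norm_nonneg (X u - X (-u))]
    have h7 : ‖X u - X (-u) - u‖ = 0 := by
      have := norm_nonneg (X u - X (-u) - u)
      nlinarith
    have h8 := norm_eq_zero.1 h7
    have h9 : X u - X (-u) = u := sub_eq_zero.1 h8
    calc X (-u) = X u - (X u - X (-u)) := (sub_sub_cancel _ _).symm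
      _ = X u - u := by rw [h9]
  have hquad : ∀ u : E n, ‖u‖ = 1 → ∀ y ∈ C, ‖y - X u‖ ^ 2 ≤ 2 * inner ℝ (X u - y) u := by
    intro u hu y hy
    have h1 : ‖y - X (-u)‖ ≤ 1 := hd _ hy _ (hXC (-u))
    rw [hneg u hu] at h1
    have e1 : y - (X u - u) = (y - X u) + u := by abel
    rw [e1] at h1
    have h2 : ‖(y - X u) + u‖ ^ 2 ≤ 1 := by
      nlinarith [norm_nonneg ((y - X u) + u)]
    rw [norm_add_sq_real, hu] at h2
    have e2 : inner ℝ (X u - y) u = - (inner ℝ (y - X u) u : ℝ) := by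
      rw [← inner_neg_left]
      congr 1
      abel
    rw [e2]
    linarith
  have hlip : ∀ u v : E n, ‖u‖ = 1 → ‖v‖ = 1 →
      ‖(X u - (1 / 2 : ℝ) • u) - (X v - (1 / 2 : ℝ) • v)‖ ≤ (1 / 2) * ‖u - v‖ := by
    intro u v hu hv
    have h1 := hquad u hu (X v) (hXC v)
    have h2 := hquad v hv (X u) (hXC u)
    have e1 : ‖X v - X u‖ = ‖X u - X v‖ := norm_sub_rev _ _
    rw [e1] at h1
    have e2 : inner ℝ (X v - X u) v = - (inner ℝ (X u - X v) v : ℝ) := by
      rw [← inner_neg_left]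
      congr 1
      abel
    rw [e2] at h2
    have h3 : ‖X u - X v‖ ^ 2 ≤ inner ℝ (X u - X v) (u - v) := by
      rw [inner_sub_right]
      linarith
    have e3 : (X u - (1 / 2 : ℝ) • u) - (X v - (1 / 2 : ℝ) • v) =
        (X u - X v) - (1 / 2 : ℝ) • (u - v) := by
      rw [smul_sub]
      abel
    rw [e3]
    have h4 : ‖(X u - X v) - (1 / 2 : ℝ) • (u - v)‖ ^ 2 ≤ ((1 / 2) * ‖u - v‖) ^ 2 := by
      rw [norm_sub_sq_real, inner_smul_right, norm_smul]
      have e4 : ‖(1 / 2 : ℝ)‖ = 1 / 2 := by norm_num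
      rw [e4]
      nlinarith
    exact le_of_sq_le_sq h4 (by positivity)
  set M : E n → E n := fun x => if x = 0 then 0 else X (un x) - (1 / 2 : ℝ) • un x with hM
  have hM1 : ∀ x : E n, x ≠ 0 → M x = X (un x) - (1 / 2 : ℝ) • un x := by
    intro x hx
    simp only [hM]
    rw [if_neg hx]
  have hM2 : ∀ x : E n, x ≠ 0 → M x + (1 / 2 : ℝ) • un x = X (un x) := by
    intro x hx
    rw [hM1 x hx]
    abel
  have hMlip : ∀ x y : E n, x ≠ 0 → y ≠ 0 → ‖M x - M y‖ ≤ (1 / 2) * ‖un x - un y‖ := by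
    intro x y hx hy
    rw [hM1 x hx, hM1 y hy]
    exact hlip _ _ (MPS_un_norm hx) (MPS_un_norm hy)
  refine ⟨M, ⟨?_, ?_, ?_, ?_, hMlip, ?_⟩, ?_⟩
  · -- measurable
    apply measurable_of_continuousOn_compl_singleton (0 : E n)
    intro x hx
    have hx0 : x ≠ 0 := hx
    rw [ContinuousWithinAt, tendsto_iff_norm_sub_tendsto_zero]
    have h1 : Tendsto (fun y : E n => (1 / 2 : ℝ) * ‖un y - un x‖) (𝓝[{0}ᶜ] x) (𝓝 0) := by
      have h2 : Tendsto (fun y : E n => ‖un y - un x‖) (𝓝[{0}ᶜ] x) (𝓝 0) := by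
        rw [← tendsto_iff_norm_sub_tendsto_zero]
        exact MPS_un_cont x hx
      have h3 := h2.const_mul (1 / 2 : ℝ)
      rw [mul_zero] at h3
      exact h3
    refine squeeze_zero' (Eventually.of_forall fun y => norm_nonneg _) ?_ h1
    filter_upwards [self_mem_nhdsWithin] with y hy
    exact hMlip y x hy hx0
  · -- homogeneous
    intro x t ht
    by_cases hx : x = 0
    · rw [hx, smul_zero]
    · have htx : t • x ≠ 0 := smul_ne_zero ht.ne' hx
      rw [hM1 x hx, hM1 _ htx, MPS_un_smul x t ht]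
  · -- even
    intro x
    by_cases hx : x = 0
    · rw [hx, neg_zero]
    · have hnx : -x ≠ 0 := neg_ne_zero.2 hx
      rw [hM1 x hx, hM1 _ hnx, MPS_un_neg, hneg _ (MPS_un_norm hx), smul_neg]
      have e1 : un x = (1 / 2 : ℝ) • un x + (1 / 2 : ℝ) • un x := by
        rw [← add_smul]
        norm_num
      have e2 : X (un x) - un x - -((1 / 2 : ℝ) • un x) =
          X (un x) - ((1 / 2 : ℝ) • un x + (1 / 2 : ℝ) • un x) + (1 / 2 : ℝ) • un x := by
        rw [← e1]
        abel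
      rw [e2]
      abel
  · -- bounded
    intro x
    by_cases hx : x = 0
    · simp only [hM]
      rw [if_pos hx, norm_zero]
      norm_num
    · have hu := MPS_un_norm hx
      have h1 : ‖X (un x)‖ ^ 2 ≤ 1 / 2 := hb _ (hXC _)
      have h2 : ‖X (-un x)‖ ^ 2 ≤ 1 / 2 := hb _ (hXC _)
      have e1 : X (un x) = M x + (1 / 2 : ℝ) • un x := (hM2 x hx).symm
      have e2 : X (-un x) = M x - (1 / 2 : ℝ) • un x := by
        rw [hneg _ hu, e1]
        have e3 : un x = (1 / 2 : ℝ) • un x + (1 / 2 : ℝ) • un x := by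
          rw [← add_smul]
          norm_num
        have e4 : M x + (1 / 2 : ℝ) • un x - un x =
            M x + (1 / 2 : ℝ) • un x - ((1 / 2 : ℝ) • un x + (1 / 2 : ℝ) • un x) := by
          rw [← e3]
        rw [e4]
        abel
      rw [e1, norm_add_sq_real] at h1
      rw [e2, norm_sub_sq_real] at h2
      have e5 : ‖(1 / 2 : ℝ) • un x‖ = 1 / 2 := by
        rw [norm_smul, hu]
        norm_num
      rw [e5] at h1 h2
      have h3 : ‖M x‖ ^ 2 ≤ (1 / 2) ^ 2 := by nlinarith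
      exact le_of_sq_le_sq h3 (by norm_num)
  · -- support points
    intro x y hx hy
    rw [hM2 x hx, hM2 y hy, hX (un x)]
    exact hle _ (hXC _) _
  · intro x hx
    refine ⟨?_, ?_, ?_⟩
    · rw [hM2 x hx]
      exact hXC _
    · rw [hM1 x hx, inner_sub_right, inner_smul_right, real_inner_self_eq_norm_sq,
        MPS_un_norm hx, hX (un x)]
      have h1 : supp C (un x) = supp C x / ‖x‖ := by
        unfold un
        rw [hhom x (‖x‖⁻¹) (by positivity), div_eq_inv_mul]
      rw [h1]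
      ring
    · intro y hy
      rw [hM2 x hx]
      exact hd _ hy _ (hXC _)

end Pool.Agent.CX
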